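import Pool.Agent.Helper76.CV.Goals

set_option autoImplicit false

open scoped ContDiff
open Filter Topology

namespace Pool.Agent.Helper58.CV.JET1

open Pool.Agent.Helper76.CV

theorem t (h : WF1) : JET1 := by
  intro v U u hv hU he
  have hW : ContDiff ℝ ∞ W := h.1
  have hW1 : ∀ x, HasDerivAt W (deriv W x) x := fun x =>
    ((hW.differentiable (by simp)) x).hasDerivAt
  have hW' : ContDiff ℝ ∞ (deriv W) := (contDiff_infty_iff_deriv.mp hW).2
  have hW2 : ∀ x, HasDerivAt (deriv W) (deriv (deriv W) x) x := fun x =>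
    ((hW'.differentiable (by simp)) x).hasDerivAt
  have hv1 : ∀ᶠ u' in 𝓝 u, DifferentiableAt ℝ v u' :=
    (hv.eventually (by simp)).mono fun u' h' => h'.differentiableAt (by norm_num)
  have hU1 : ∀ᶠ u' in 𝓝 u, DifferentiableAt ℝ U u' :=
    (hU.eventually (by simp)).mono fun u' h' => h'.differentiableAt (by norm_num)
  have hv2 : HasDerivAt (deriv v) (deriv (deriv v) u) u := by
    have h1 : ContDiffAt ℝ 1 (fun x => fderiv ℝ v x 1) u :=
      (hv.fderiv_right (m := 1) (by norm_num)).clm_apply contDiffAt_const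
    have h2 : deriv v = fun x => fderiv ℝ v x 1 := by
      funext x
      exact (fderiv_apply_one_eq_deriv).symm
    rw [← h2] at h1
    exact (h1.differentiableAt (by norm_num)).hasDerivAt
  have key : ∀ᶠ u' in 𝓝 u, deriv U u' = -(2 * sg (v u') * deriv v u') := by
    filter_upwards [hv1, hU1, he.eventually_nhds] with u' h1 h2 h3
    have h4 : HasDerivAt (fun x => Real.cos (13 * W (4 / 25 - v x)))
        (-Real.sin (13 * W (4 / 25 - v u')) * (13 * (deriv W (4 / 25 - v u') * -(deriv v u')))) u' := by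
      have h5 : HasDerivAt (fun x => 4 / 25 - v x) (-(deriv v u')) u' := by
        simpa using h1.hasDerivAt.const_sub (4 / 25)
      have h6 := ((hW1 (4 / 25 - v u')).comp u' h5).const_mul 13
      exact (Real.hasDerivAt_cos _).comp u' h6
    have h7 : HasDerivAt (fun x => Real.exp (-(13 / 2 * U x)))
        (Real.exp (-(13 / 2 * U u')) * -(13 / 2 * deriv U u')) u' :=
      (h2.hasDerivAt.const_mul (13 / 2)).neg.exp
    have h8 := (h7.congr_of_eventuallyEq h3).unique h4
    have h9 := h3.self_of_nhds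
    have h10 : 0 < Real.cos (13 * W (4 / 25 - v u')) := by rw [h9]; exact Real.exp_pos _
    rw [← h9] at h8
    unfold sg lam
    rw [Real.tan_eq_sin_div_cos]
    revert h8 h10
    generalize Real.cos (13 * W (4 / 25 - v u')) = cc
    generalize Real.sin (13 * W (4 / 25 - v u')) = ss
    generalize deriv W (4 / 25 - v u') = ww
    intro h8 h10
    field_simp
    linarith
  have hcos : Real.cos (13 * W (4 / 25 - v u)) ≠ 0 := by
    rw [he.self_of_nhds]
    exact (Real.exp_pos _).ne'
  refine ⟨key.self_of_nhds, ?_⟩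
  have hsg : HasDerivAt sg (-(sg1 (v u))) (v u) := by
    have h5 : HasDerivAt (fun x : ℝ => 4 / 25 - x) (-1) (v u) := by
      simpa using (hasDerivAt_id (v u)).const_sub (4 / 25)
    have h6 := ((hW1 (4 / 25 - v u)).comp (v u) h5).const_mul 13
    have h7 := (Real.hasDerivAt_tan hcos).comp (v u) h6
    have h8 := (hW2 (4 / 25 - v u)).comp (v u) h5
    have h9 := h7.mul h8
    have e : sg = (Real.tan ∘ fun y => 13 * (W ∘ fun x : ℝ => 4 / 25 - x) y) *
        (deriv W ∘ fun x : ℝ => 4 / 25 - x) := by
      funext x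
      rfl
    rw [e]
    refine h9.congr_deriv ?_
    unfold sg1 sg lam
    simp only [Function.comp_apply]
    have h10 : 1 / Real.cos (13 * W (4 / 25 - v u)) ^ 2 =
        1 + Real.tan (13 * W (4 / 25 - v u)) ^ 2 := by
      rw [one_div, ← Real.inv_one_add_tan_sq hcos, inv_inv]
    rw [h10]
    ring
  have h11 : HasDerivAt (fun u' => -(2 * sg (v u') * deriv v u'))
      (-(2 * (-(sg1 (v u)) * deriv v u) * deriv v u + 2 * sg (v u) * deriv (deriv v) u)) u := by
    have h12 : HasDerivAt (fun u' => sg (v u')) (-(sg1 (v u)) * deriv v u) u :=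
      hsg.comp u hv1.self_of_nhds.hasDerivAt
    exact ((h12.const_mul 2).mul hv2).neg
  rw [(h11.congr_of_eventuallyEq key).deriv]
  ring

end Pool.Agent.Helper58.CV.JET1
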